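import Pool.Agent.X248.Core.Main

/-!
# Deciding whether the core equals the nucleus is complete for parallel access to NP

Membership: the size of a maximum independent set, the critical difference, the size of a maximum
critical independent set, and for every vertex whether some such set avoids it, are all found with
one round of queries `is there an independent set I with |N(I)| + a ≤ |I| + n and b ≤ |I| which
avoids v?`.

Hardness, by a reduction from the complement of the following complete problem: given pairs of
formulas `(φ_i, ψ_i)`, is there an `i` such that `φ_i` is satisfiable and `ψ_i` is not? For a formula
`χ` with `m` clauses let `H(χ)` be the usual graph with `3m` vertices whose independence number is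
at most `m`, with equality exactly for satisfiable `χ`, together with isolated vertices so that the
bound becomes `N_i`. The graph of the pair is the join of `H(φ_i)`, two copies of `H(ψ_i)` and
`N_i - 1` disjoint edges. Its core is nonempty exactly when `φ_i` is satisfiable and `ψ_i` is not.
The disjoint union of these graphs, joined with a large clique, has no nonempty critical independent
set, so its nucleus is empty, and its core is empty exactly when all the cores are.
-/

set_option autoImplicit false

namespace Pool.Agent.Results.MP_54ee58_lc.CoreNucleusComplete

open Pool.Agent.NPC Pool.Agent.H622R2 Pool.Agent.X248 Pool.Agent.X248.Core
open Pool.Agent.Y650.TH (InTheta2)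

/-- **Deciding whether the core equals the nucleus is complete for the class of languages decidable
in polynomial time with one round of parallel queries to `NP`**, under polynomial-time many-one
reductions. In particular the problem is both `NP`-hard and `coNP`-hard, and it has a
polynomial-time algorithm if and only if `P = NP`. -/
theorem result :
    (InTheta2 (lang fun M : List (List Bool) => core (matGraph M) = nucleus (matGraph M)) ∧
      ∀ L : Set (List Bool), InTheta2 L →
        Reduces L (lang fun M : List (List Bool) => core (matGraph M) = nucleus (matGraph M))) ∧
    NPHardP (fun M : List (List Bool) => core (matGraph M) = nucleus (matGraph M)) ∧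
    CoNPHardP (fun M : List (List Bool) => core (matGraph M) = nucleus (matGraph M)) ∧
    (InPP (fun M : List (List Bool) => core (matGraph M) = nucleus (matGraph M)) ↔
      ∀ L : Set (List Bool), InNP L → InP L) :=
  ⟨⟨mem_theta, fun _ hL => hardTh_reduces hardTh_core hL⟩, hardTh_np hardTh_core,
    hardTh_conp hardTh_core, hardTh_inP_iff hardTh_core mem_theta⟩

end Pool.Agent.Results.MP_54ee58_lc.CoreNucleusComplete
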